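import Pool.Agent.Q269.GR.StA

/-!
# Project GR (helper269), job GR-SUR: all the evaluations of a vector of bits are independent
-/

set_option autoImplicit false
set_option linter.all false

open scoped Classical
open Finset Polynomial

namespace Pool.Agent.Q285.GR

open Pool.Agent.Q269.GR

section basic

variable {F : Type} [Field F] [Algebra F2 F]

/-- evaluation at a root of unity of a reduced polynomial -/
theorem ev_mod {g : ℕ} (hg : 0 < g) (ξ : F) (h : ξ ^ g = 1) (p : F2[X]) :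
    ev ξ (fun c : Fin g => (p %ₘ (X ^ g - C 1)).coeff c) = aeval ξ p := by
  have hm : (X ^ g - C 1 : F2[X]).Monic := monic_X_pow_sub_C _ hg.ne'
  have h1 : aeval ξ p = aeval ξ (p %ₘ (X ^ g - C 1)) := by
    conv_lhs => rw [← modByMonic_add_div p (X ^ g - C 1)]
    simp [h]
  have hd : (p %ₘ (X ^ g - C 1)).natDegree < g := by
    have h2 := natDegree_modByMonic_lt p hm (by
      intro h3
      have h4 : (X ^ g - C 1 : F2[X]).natDegree = g := natDegree_X_pow_sub_C
      rw [h3, natDegree_one] at h4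
      omega)
    rwa [natDegree_X_pow_sub_C] at h2
  rw [h1, aeval_eq_sum_range' hd, Finset.sum_range]
  unfold ev
  refine sum_congr rfl fun c _ => ?_
  rw [Algebra.smul_def]
  rfl

theorem aeval_sq (ξ : F) (p : F2[X]) (n : ℕ) : aeval (ξ ^ 2 ^ n) p = aeval ξ p ^ 2 ^ n := by
  induction n with
  | zero => simp
  | succ n ih =>
    rw [pow_succ, pow_mul, pow_mul, ← ih, ← map_pow, ← ZMod.expand_card, expand_aeval]

end basic

/-- the kernel of the evaluation -/
noncomputable def Kr {E : Type} [Field E] [Algebra F2 E] (η : E) : Ideal F2[X] :=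
  RingHom.ker (aeval η : F2[X] →ₐ[F2] E)

theorem mem_Kr {E : Type} [Field E] [Algebra F2 E] {η : E} {p : F2[X]} :
    p ∈ Kr η ↔ aeval η p = 0 := RingHom.mem_ker

theorem Kr_order {E E' : Type} [Field E] [Algebra F2 E] [Field E'] [Algebra F2 E'] {η : E} {η' : E'}
    (h : Kr η = Kr η') : orderOf η = orderOf η' := by
  rw [orderOf_eq_orderOf_iff]
  intro n
  have h1 : ∀ {E : Type} [Field E] [Algebra F2 E] (η : E), (X ^ n - 1 : F2[X]) ∈ Kr η ↔ η ^ n = 1 := by
    intro E _ _ η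
    rw [mem_Kr]
    simp [sub_eq_zero]
  rw [← h1 η, ← h1 η', h]

theorem ord_inv {r : ℕ} {F : Type} [Field F] [Fintype F] [Algebra F2 F] {ξ : F} (h : IsRt r ξ) :
    IsRt r ξ⁻¹ := by
  refine ⟨h.odd, h.lt, ?_, h.card⟩
  rw [← h.ord]
  rw [orderOf_eq_orderOf_iff]
  intro n
  rw [inv_pow, inv_eq_one]

theorem surj {r : ℕ} {F : Type} [Field F] [Fintype F] [Algebra F2 F] {ξ : F} (h : IsRt r ξ) (y : F) :
    ∃ p : F2[X], aeval ξ p = y := by
  obtain ⟨K, hK⟩ : ∃ K : IntermediateField F2 F, K = IntermediateField.adjoin F2 {ξ} := ⟨_, rfl⟩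
  have hx : ξ ∈ K := by
    rw [hK]
    exact IntermediateField.mem_adjoin_simple_self F2 ξ
  have hc : Nat.card K = 2 ^ Module.finrank F2 K := by
    rw [Module.natCard_eq_pow_finrank (K := F2), Nat.card_zmod]
  have hcF : 2 ^ orderOf (2 : ZMod r) = 2 ^ Module.finrank F2 F := by
    rw [← h.card, ← Nat.card_eq_fintype_card, Module.natCard_eq_pow_finrank (K := F2), Nat.card_zmod]
  have hcF' := Nat.pow_right_injective le_rfl hcF
  have h1 : ξ ^ 2 ^ Module.finrank F2 K = ξ := by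
    haveI : Fintype K := Fintype.ofFinite K
    have h2 := FiniteField.pow_card (⟨ξ, hx⟩ : K)
    rw [← Nat.card_eq_fintype_card, hc] at h2
    exact congrArg Subtype.val h2
  have hξ0 : ξ ≠ 0 := by
    rintro rfl
    have h3 := h.ord
    rw [orderOf_zero] at h3
    have := h.lt
    omega
  have h2 : ξ ^ (2 ^ Module.finrank F2 K - 1) = 1 := by
    have h3 : 2 ^ Module.finrank F2 K = (2 ^ Module.finrank F2 K - 1) + 1 :=
      (Nat.sub_add_cancel Nat.one_le_two_pow).symm
    rw [h3, pow_succ] at h1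
    exact mul_right_cancel₀ hξ0 (h1.trans (one_mul ξ).symm)
  have h3 : r ∣ 2 ^ Module.finrank F2 K - 1 := by
    rw [← h.ord]
    exact orderOf_dvd_of_pow_eq_one h2
  have h4 : (2 : ZMod r) ^ Module.finrank F2 K = 1 := by
    rw [← Nat.cast_ofNat (R := ZMod r), ← Nat.cast_pow, ← Nat.cast_one, eq_comm,
      ZMod.natCast_eq_natCast_iff]
    exact (Nat.modEq_iff_dvd' Nat.one_le_two_pow).2 h3
  have h5 : orderOf (2 : ZMod r) ≤ Module.finrank F2 K :=
    Nat.le_of_dvd Module.finrank_pos (orderOf_dvd_of_pow_eq_one h4)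
  have h6 : Module.finrank F2 K.toSubmodule = Module.finrank F2 F :=
    le_antisymm (Submodule.finrank_le _) (hcF' ▸ h5)
  have h7 := Submodule.eq_top_of_finrank_eq h6
  have h8 : y ∈ K := by
    have : y ∈ K.toSubmodule := by rw [h7]; exact Submodule.mem_top
    exact this
  rw [hK, ← IntermediateField.mem_toSubalgebra,
    IntermediateField.adjoin_simple_toSubalgebra_of_isAlgebraic (Algebra.IsAlgebraic.isAlgebraic ξ),
    Algebra.adjoin_singleton_eq_range_aeval] at h8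
  exact h8

theorem Kr_max {r : ℕ} {F : Type} [Field F] [Fintype F] [Algebra F2 F] {ξ : F} (h : IsRt r ξ) :
    (Kr ξ).IsMaximal := by
  unfold Kr
  exact RingHom.ker_isMaximal_of_surjective _ (surj h)

theorem Kr_one : (Kr (1 : F2)).IsMaximal := by
  unfold Kr
  exact RingHom.ker_isMaximal_of_surjective _ fun y => ⟨C y, by simp⟩

theorem conj_un {r : ℕ} {F : Type} [Field F] [Fintype F] [Algebra F2 F] {ξ : F} (h : IsRt r ξ)
    (hk : Kr ξ = Kr ξ⁻¹) : Un r := by
  have hi : IsIntegral F2 ξ := Algebra.IsIntegral.isIntegral ξ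
  have h1 : aeval ξ⁻¹ (minpoly F2 ξ) = 0 := by
    rw [← mem_Kr, ← hk, mem_Kr]
    exact minpoly.aeval _ _
  have h2 : IsConjRoot F2 ξ⁻¹ ξ :=
    (minpoly.eq_of_irreducible_of_monic (minpoly.irreducible hi) h1 (minpoly.monic hi)).symm
  obtain ⟨σ, hσ⟩ := h2.exists_algEquiv
  obtain ⟨n, hn⟩ := (FiniteField.bijective_frobeniusAlgEquivOfAlgebraic_pow F2 F).2 σ
  have h3 : ξ ^ 2 ^ (n : ℕ) = ξ⁻¹ := by
    rw [← hσ, ← hn]
    simp only [AlgEquiv.coe_pow, FiniteField.coe_frobeniusAlgEquivOfAlgebraic_iterate, ZMod.card]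
  have hξ0 : ξ ≠ 0 := by
    rintro rfl
    have h3 := h.ord
    rw [orderOf_zero] at h3
    have := h.lt
    omega
  refine ⟨n, ?_⟩
  rw [← h.ord]
  refine orderOf_dvd_of_pow_eq_one ?_
  rw [pow_succ, h3, inv_mul_cancel₀ hξ0]

theorem un_half {r : ℕ} (ho : Odd r) (h1 : 1 < r) (h : Un r) :
    (2 : ZMod r) ^ (orderOf (2 : ZMod r) / 2) = -1 := by
  obtain ⟨m, hm⟩ := h
  obtain ⟨f, hf⟩ : ∃ f, f = orderOf (2 : ZMod r) := ⟨_, rfl⟩
  have h2 : (2 : ZMod r) ^ m = -1 := by
    rw [eq_neg_iff_add_eq_zero]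
    have h3 := (ZMod.natCast_eq_zero_iff (2 ^ m + 1) r).2 hm
    push_cast at h3
    exact h3
  have hne : (-1 : ZMod r) ≠ 1 := by
    intro h3
    have h4 : ((2 : ℕ) : ZMod r) = 0 := by
      push_cast
      have : (1 : ZMod r) + 1 = 0 := by
        nth_rw 1 [← h3]
        ring
      rw [← this]
      norm_num
    rw [ZMod.natCast_eq_zero_iff] at h4
    have h5 := Nat.le_of_dvd (by norm_num) h4
    obtain ⟨t, ht⟩ := ho
    omega
  have h3 : f ∣ 2 * m := by
    rw [hf]
    refine orderOf_dvd_of_pow_eq_one ?_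
    rw [mul_comm, pow_mul, h2]
    ring
  have h4 : ¬ f ∣ m := by
    intro h5
    rw [hf, orderOf_dvd_iff_pow_eq_one, h2] at h5
    exact hne h5
  obtain ⟨k, hk⟩ := h3
  have hko : Odd k := by
    rcases Nat.even_or_odd k with ⟨t, ht⟩ | h5
    · exfalso
      apply h4
      refine ⟨t, ?_⟩
      have h6 : 2 * m = 2 * (f * t) := by rw [hk, ht]; ring
      omega
    · exact h5
  have hfe : Even f := by
    rcases Nat.even_or_odd f with h5 | h5
    · exact h5
    · exfalso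
      have := h5.mul hko
      rw [← hk] at this
      exact (Nat.not_odd_iff_even.2 (even_two_mul m)) this
  obtain ⟨e, he⟩ := hfe
  have he2 : orderOf (2 : ZMod r) / 2 = e := by omega
  obtain ⟨t, ht⟩ := hko
  have hm2 : m = e + f * t := by
    have h6 : 2 * m = 2 * (e + f * t) := by rw [hk, ht, he]; ring
    omega
  rw [he2, ← h2, hm2, pow_add, pow_mul, hf, pow_orderOf_eq_one, one_pow, mul_one]

theorem un_inv {r : ℕ} {F : Type} [Field F] [Fintype F] [Algebra F2 F] {ξ : F} (h : IsRt r ξ)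
    (hu : Un r) : ξ ^ 2 ^ (orderOf (2 : ZMod r) / 2) = ξ⁻¹ := by
  have h1 := un_half h.odd h.lt hu
  have h2 : r ∣ 2 ^ (orderOf (2 : ZMod r) / 2) + 1 := by
    rw [← ZMod.natCast_eq_zero_iff]
    push_cast
    rw [h1]
    ring
  have h3 : ξ ^ (2 ^ (orderOf (2 : ZMod r) / 2) + 1) = 1 := by
    rw [← orderOf_dvd_iff_pow_eq_one, h.ord]
    exact h2
  rw [pow_succ] at h3
  exact eq_inv_of_mul_eq_one_left h3

theorem t_SUR : S_SUR := by
  intro g hg R hR F _ _ _ ξ hξ b y hy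
  have hg0 : 0 < g := hg.pos
  have hpow : ∀ r ∈ R, ξ r ^ g = 1 := fun r hr => by
    rw [← orderOf_dvd_iff_pow_eq_one, (hξ r hr).ord]
    exact hR r hr
  obtain ⟨p, hp0, hp⟩ : ∃ p : F2[X], aeval (1 : F2) p = b ∧
      ∀ r ∈ R, aeval (ξ r) p = (y r).1 ∧ aeval (ξ r)⁻¹ p = (y r).2 := by
    obtain ⟨η, hη⟩ : ∃ η : ∀ x : ℕ × Bool, F x.1, η = fun x : ℕ × Bool =>
      if x.2 = true then (ξ x.1)⁻¹ else ξ x.1 := ⟨_, rfl⟩
    obtain ⟨z, hz⟩ : ∃ z : ∀ x : ℕ × Bool, F x.1, z = fun x : ℕ × Bool =>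
      if x.2 = true then (y x.1).2 else (y x.1).1 := ⟨_, rfl⟩
    have hrt : ∀ x : ℕ × Bool, x.1 ∈ R → IsRt x.1 (η x) := by
      rintro ⟨r, c⟩ hr
      rw [hη]
      cases c
      · exact hξ r hr
      · exact ord_inv (hξ r hr)
    choose! pz hpz using fun (x : ℕ × Bool) (hx : x.1 ∈ R) => surj (hrt x hx) (z x)
    have hne : ∀ x x' : ℕ × Bool, x.1 ∈ R → (x.2 = true → ¬ Un x.1) → x'.1 ∈ R →
        (x'.2 = true → ¬ Un x'.1) → x ≠ x' → Kr (η x) ≠ Kr (η x') := by
      rintro ⟨r, c⟩ ⟨r', c'⟩ hr hc hr' hc' hxx hk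
      have h1 := Kr_order hk
      rw [(hrt _ hr).ord, (hrt _ hr').ord] at h1
      simp only at h1
      subst h1
      rw [hη] at hk
      cases c <;> cases c'
      · exact hxx rfl
      · exact hc' rfl (conj_un (hξ r hr) hk)
      · exact hc rfl (conj_un (hξ r hr) hk.symm)
      · exact hxx rfl
    let ι : Type := {x : ℕ × Bool // x.1 ∈ R ∧ (x.2 = true → ¬ Un x.1)}
    obtain ⟨I, hI1, hI2⟩ : ∃ I : Option ι → Ideal F2[X], I none = Kr (1 : F2) ∧
        ∀ x : ι, I (some x) = Kr (η x.1) :=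
      ⟨fun o => Option.rec (Kr (1 : F2)) (fun x => Kr (η x.1)) o, rfl, fun _ => rfl⟩
    obtain ⟨w, hw1, hw2⟩ : ∃ w : Option ι → F2[X], w none = C b ∧
        ∀ x : ι, w (some x) = pz x.1 :=
      ⟨fun o => Option.rec (C b) (fun x => pz x.1) o, rfl, fun _ => rfl⟩
    have hcop : Pairwise (Function.onFun IsCoprime I) := by
      have h1 : ∀ x : ι, Kr (1 : F2) ≠ Kr (η x.1) := by
        intro x hk
        have h1 := Kr_order hk
        rw [orderOf_one, (hrt _ x.2.1).ord] at h1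
        have := (hrt _ x.2.1).lt
        omega
      intro o o' hoo
      unfold Function.onFun
      rcases o with _ | x <;> rcases o' with _ | x'
      · exact absurd rfl hoo
      · rw [hI1, hI2]
        haveI := Kr_max (hrt _ x'.2.1)
        haveI := Kr_one
        exact Ideal.isCoprime_of_isMaximal (h1 x')
      · rw [hI1, hI2]
        haveI := Kr_max (hrt _ x.2.1)
        haveI := Kr_one
        exact Ideal.isCoprime_of_isMaximal (h1 x).symm
      · rw [hI2, hI2]
        haveI := Kr_max (hrt _ x.2.1)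
        haveI := Kr_max (hrt _ x'.2.1)
        exact Ideal.isCoprime_of_isMaximal (hne x.1 x'.1 x.2.1 x.2.2 x'.2.1 x'.2.2 fun h2 =>
          hoo (congrArg some (Subtype.ext h2)))
    haveI : Finite (Option ι) := by
      haveI : Finite ι := by
        apply Finite.of_injective (fun x : ι => ((⟨x.1.1, x.2.1⟩ : {r // r ∈ R}), x.1.2))
        rintro ⟨⟨r, c⟩, h1⟩ ⟨⟨r', c'⟩, h2⟩ h3
        simp only [Prod.mk.injEq, Subtype.mk.injEq] at h3
        exact Subtype.ext (Prod.ext h3.1 h3.2)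
      infer_instance
    obtain ⟨p, hp⟩ := Ideal.exists_forall_sub_mem_ideal hcop w
    have hq : ∀ x : ι, aeval (η x.1) p = z x.1 := by
      intro x
      have h1 := hp (some x)
      rw [hI2, hw2, mem_Kr, map_sub, hpz x.1 x.2.1, sub_eq_zero] at h1
      exact h1
    have hq1 : ∀ r ∈ R, aeval (ξ r) p = (y r).1 := by
      intro r hr
      have h1 := hq ⟨(r, false), hr, fun h => absurd h (by simp)⟩
      rw [hη, hz] at h1
      exact h1
    refine ⟨p, ?_, fun r hr => ⟨hq1 r hr, ?_⟩⟩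
    · have h1 := hp none
      rw [hI1, hw1, mem_Kr, map_sub, sub_eq_zero] at h1
      rw [h1]
      simp
    · by_cases hu : Un r
      · rw [hy r hr hu, ← un_inv (hξ r hr) hu, aeval_sq, hq1 r hr]
      · have h1 := hq ⟨(r, true), hr, fun _ => hu⟩
        rw [hη, hz] at h1
        exact h1
  refine ⟨fun c => (p %ₘ (X ^ g - C 1)).coeff c, ?_, fun r hr => ⟨?_, ?_⟩⟩
  · have h1 := ev_mod hg0 (1 : F2) (one_pow g) p
    rw [hp0] at h1
    rw [← h1]
    unfold ev
    refine sum_congr rfl fun c _ => ?_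
    rw [one_pow, mul_one]
    rfl
  · rw [ev_mod hg0 (ξ r) (hpow r hr) p]
    exact (hp r hr).1
  · rw [ev_mod hg0 (ξ r)⁻¹ (by rw [inv_pow, hpow r hr, inv_one]) p]
    exact (hp r hr).2

end Pool.Agent.Q285.GR
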