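import Pool.Agent.Q285.GR.LAR

/-!
# Project GR (helper269), job GR-LB2: the kernel for large orders
-/

set_option autoImplicit false
set_option linter.all false

open scoped Classical
open Finset

namespace Pool.Agent.Q285.GR

open Pool.Agent.Q269.GR

/-- nonsingular matrices with zero diagonal -/
def Pt {F : Type} [Field F] (rl : F → F → Prop) (J : Type) [Fintype J] : Prop :=
  ∃ H : J → J → F, (∀ i, H i i = 0) ∧ (∀ i j, rl (H i j) (H j i)) ∧
    ∀ v : J → F, (∀ i, ∑ j, H i j * v j = 0) → ∀ i, v i = 0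

section mat

variable {F : Type} [Field F] {rl : F → F → Prop}

theorem Pt_equiv {J J' : Type} [Fintype J] [Fintype J'] (e : J ≃ J') (h : Pt rl J) : Pt rl J' := by
  obtain ⟨H, h1, h2, h3⟩ := h
  refine ⟨fun i j => H (e.symm i) (e.symm j), fun i => h1 _, fun i j => h2 _ _, fun v hv i => ?_⟩
  have h4 := h3 (fun j => v (e j)) (fun i => by
    rw [← hv (e i), ← Equiv.sum_comp e]
    simp) (e.symm i)
  simpa using h4

theorem Pt_sum {J J' : Type} [Fintype J] [Fintype J'] (h0 : rl 0 0) (h : Pt rl J) (h' : Pt rl J') :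
    Pt rl (J ⊕ J') := by
  obtain ⟨H, h1, h2, h3⟩ := h
  obtain ⟨H', h1', h2', h3'⟩ := h'
  refine ⟨fun x y => Sum.elim (fun i => Sum.elim (fun j => H i j) (fun _ => 0) y)
    (fun i => Sum.elim (fun _ => 0) (fun j => H' i j) y) x, ?_, ?_, ?_⟩
  · rintro (i | i)
    · exact h1 i
    · exact h1' i
  · rintro (i | i) (j | j)
    · exact h2 i j
    · exact h0
    · exact h0
    · exact h2' i j
  · intro v hv
    have h4 := h3 (fun j => v (Sum.inl j)) (fun i => by
      have h5 := hv (Sum.inl i)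
      rw [Fintype.sum_sum_type] at h5
      simpa using h5)
    have h4' := h3' (fun j => v (Sum.inr j)) (fun i => by
      have h5 := hv (Sum.inr i)
      rw [Fintype.sum_sum_type] at h5
      simpa using h5)
    rintro (i | i)
    · exact h4 i
    · exact h4' i

theorem Pt_two (h0 : rl 0 0) (h1 : rl 1 1) : Pt rl (Fin 2) := by
  refine ⟨fun i j => if i = j then 0 else 1, fun i => if_pos rfl, fun i j => ?_, fun v hv i => ?_⟩
  · show rl (if i = j then 0 else 1) (if j = i then 0 else 1)
    by_cases h : i = j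
    · rw [if_pos h, if_pos h.symm]
      exact h0
    · rw [if_neg h, if_neg (Ne.symm h)]
      exact h1
  · have h2 := hv 0
    have h3 := hv 1
    rw [Fin.sum_univ_two] at h2 h3
    simp at h2 h3
    fin_cases i
    · exact h3
    · exact h2

theorem Pt_three (h0 : rl 0 0) (h1 : rl 1 1) (x y : F) (hxy : rl x y) (hyx : rl y x)
    (hne : x + y ≠ 0) : Pt rl (Fin 3) := by
  obtain ⟨H, hH⟩ : ∃ H : Fin 3 → Fin 3 → F, H = ![![0, 1, x], ![1, 0, 1], ![y, 1, 0]] := ⟨_, rfl⟩
  refine ⟨H, fun i => ?_, fun i j => ?_, fun v hv => ?_⟩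
  · rw [hH]
    fin_cases i <;> rfl
  · rw [hH]
    fin_cases i <;> fin_cases j <;> first | exact h0 | exact h1 | exact hxy | exact hyx
  · have h2 := hv 0
    have h3 := hv 1
    have h4 := hv 2
    rw [Fin.sum_univ_three, hH] at h2 h3 h4
    simp at h2 h3 h4
    have h5 : (x + y) * v 2 = 0 := by linear_combination h2 - h4 + y * h3
    have h6 : v 2 = 0 := (mul_eq_zero.1 h5).resolve_left hne
    rw [h6, mul_zero, add_zero] at h2
    rw [h6, add_zero] at h3
    intro i
    fin_cases i
    · exact h3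
    · exact h2
    · exact h6

theorem Pt_fin (h0 : rl 0 0) (h1 : rl 1 1) (x y : F) (hxy : rl x y) (hyx : rl y x)
    (hne : x + y ≠ 0) (m : ℕ) : 2 ≤ m → Pt rl (Fin m) := by
  induction m using Nat.strong_induction_on with
  | _ m ih =>
    intro hm
    rcases Nat.lt_or_ge m 4 with h | h
    · interval_cases m
      · exact Pt_two h0 h1
      · exact Pt_three h0 h1 x y hxy hyx hne
    · obtain ⟨k, rfl⟩ : ∃ k, m = k + 2 := ⟨m - 2, by omega⟩
      exact Pt_equiv finSumFinEquiv (Pt_sum h0 (ih k (by omega) (by omega)) (Pt_two h0 h1))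

end mat

section lin

variable {F : Type} [Field F] [Algebra F2 F] {J : Type} [Fintype J]

/-- the system as a linear map -/
noncomputable def eqL (M : J → J → F) (dd : J → F) (a c : J → F2) :
    (J → F × F) →ₗ[F] (J → F × F) where
  toFun w i := eqn M dd a c w i
  map_add' w w' := by
    funext i
    simp only [eqn, Pi.add_apply, smul_add, sum_add_distrib, Prod.fst_add, Prod.snd_add, mul_add]
    have e : ∀ x y x' y' : F, ((x + x', y + y') : F × F) = (x, y) + (x', y') := fun _ _ _ _ => rfl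
    rw [e]
    abel
  map_smul' t w := by
    funext i
    simp only [eqn, Pi.smul_apply, smul_add, Finset.smul_sum, Prod.smul_fst, Prod.smul_snd,
      smul_eq_mul, RingHom.id_apply]
    congr 1
    · congr 1
      · exact sum_congr rfl fun j _ => smul_comm _ _ _
      · exact smul_comm _ _ _
    · apply Prod.ext
      · exact mul_left_comm _ _ _
      · exact mul_left_comm _ _ _

theorem eqL_apply (M : J → J → F) (dd : J → F) (a c : J → F2) (w : J → F × F) (i : J) :
    eqL M dd a c w i = eqn M dd a c w i := rfl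

/-- the matrix as a linear map -/
noncomputable def mtL (H : J → J → F) : (J → F × F) →ₗ[F] (J → F × F) where
  toFun w i := ∑ j, H i j • w j
  map_add' w w' := by
    funext i
    simp only [Pi.add_apply, smul_add, sum_add_distrib]
  map_smul' t w := by
    funext i
    simp only [Pi.smul_apply, Finset.smul_sum, RingHom.id_apply]
    exact sum_congr rfl fun j _ => smul_comm _ _ _

theorem mtL_apply (H : J → J → F) (w : J → F × F) (i : J) : mtL H w i = ∑ j, H i j • w j := rfl

theorem mtL_inj (H : J → J → F) (h : ∀ v : J → F, (∀ i, ∑ j, H i j * v j = 0) → ∀ i, v i = 0) :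
    Function.Injective (mtL H) := by
  rw [← LinearMap.ker_eq_bot, LinearMap.ker_eq_bot']
  intro w hw
  have h1 : ∀ i, ∑ j, H i j • w j = 0 := fun i => congrFun hw i
  have h2 := h (fun j => (w j).1) (fun i => by
    have h3 := congrArg Prod.fst (h1 i)
    rw [Prod.fst_sum] at h3
    simpa using h3)
  have h3 := h (fun j => (w j).2) (fun i => by
    have h3 := congrArg Prod.snd (h1 i)
    rw [Prod.snd_sum] at h3
    simpa using h3)
  funext i
  exact Prod.ext (h2 i) (h3 i)

theorem eqL_pencil (M H : J → J → F) (hH1 : ∀ i, H i i = 0) (dd : J → F) (a c : J → F2) (t : F)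
    (w : J → F × F) (hw : w ∈ Kn (fun i j => M i j + t * H i j) dd a c) :
    eqL M dd a c w + t • mtL H w = 0 := by
  funext i
  rw [Pi.add_apply, Pi.smul_apply, Pi.zero_apply, eqL_apply, mtL_apply, ← mem_Kn.1 hw i]
  unfold eqn
  have h5 : ∀ j, (if j = i then (0 : F) else M i j + t * H i j) • w j =
      (if j = i then (0 : F) else M i j) • w j + t • (H i j • w j) := by
    intro j
    by_cases hj : j = i
    · rw [if_pos hj, if_pos hj, hj, hH1]
      simp
    · rw [if_neg hj, if_neg hj, add_smul, mul_smul]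
  have h6 : ∑ j, (if j = i then (0 : F) else M i j + t * H i j) • w j =
      ∑ j, (if j = i then (0 : F) else M i j) • w j + t • ∑ j, H i j • w j := by
    rw [smul_sum, ← sum_add_distrib]
    exact sum_congr rfl fun j _ => h5 j
  beta_reduce
  rw [h6]
  abel

/-- few singular members in a pencil -/
theorem pencil [Fintype F] (A B : (J → F × F) →ₗ[F] (J → F × F)) (hB : Function.Injective B)
    (S : Finset F) (hS : ∀ t ∈ S, ∃ w, w ≠ 0 ∧ A w + t • B w = 0) :
    S.card ≤ 2 * Fintype.card J := by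
  obtain ⟨e, he⟩ : ∃ e : (J → F × F) ≃ₗ[F] (J → F × F), ∀ w, e w = B w :=
    ⟨LinearEquiv.ofInjectiveEndo B hB, fun w => rfl⟩
  obtain ⟨E, hE⟩ : ∃ E : Module.End F (J → F × F), E = (e.symm : (J → F × F) →ₗ[F] (J → F × F)) ∘ₗ A :=
    ⟨_, rfl⟩
  have h1 : ∀ t ∈ S, -t ∈ E.charpoly.roots.toFinset := by
    intro t ht
    obtain ⟨w, hw0, hw⟩ := hS t ht
    rw [Multiset.mem_toFinset, Polynomial.mem_roots (LinearMap.charpoly_monic E).ne_zero,
      ← Module.End.hasEigenvalue_iff_isRoot_charpoly]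
    refine Module.End.hasEigenvalue_of_hasEigenvector (x := w) ⟨?_, hw0⟩
    rw [Module.End.mem_eigenspace_iff, hE, LinearMap.comp_apply]
    change e.symm (A w) = -t • w
    rw [LinearEquiv.symm_apply_eq, map_smul, he]
    rw [neg_smul]
    exact eq_neg_of_add_eq_zero_left hw
  have h2 : S.card ≤ E.charpoly.roots.toFinset.card :=
    card_le_card_of_injOn (fun t => -t) h1 (fun x _ y _ h => neg_injective h)
  refine h2.trans ((Multiset.toFinset_card_le _).trans ((Polynomial.card_roots' _).trans ?_))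
  rw [LinearMap.charpoly_natDegree]
  refine le_of_eq ?_
  rw [Module.finrank_pi_fintype]
  simp [mul_comm]

end lin

/-- the fixed elements -/
theorem card_fix {F : Type} [Field F] [Fintype F] [Algebra F2 F] (n : ℕ)
    (h : Fintype.card F = (2 ^ n) ^ 2) : 2 ^ n ≤ Fintype.card {t : F // t ^ 2 ^ n = t} := by
  have hchar : ∀ x : F, x + x = 0 := by
    intro x
    haveI : CharP F 2 := charP_of_injective_algebraMap (algebraMap F2 F).injective 2
    exact CharTwo.add_self_eq_zero x
  obtain ⟨φ, hφ⟩ : ∃ φ : F → F, φ = fun x => x + x ^ 2 ^ n := ⟨_, rfl⟩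
  have hadd : ∀ x y, φ (x + y) = φ x + φ y := fun x y => by
    rw [hφ]
    simp only
    rw [add_pow_two_pow]
    ring
  have hfix : ∀ x, φ x ^ 2 ^ n = φ x := fun x => by
    rw [hφ]
    simp only
    rw [add_pow_two_pow, ← pow_mul, ← pow_two, ← h, FiniteField.pow_card, add_comm]
  have hker : ∀ x, φ x = 0 → x ^ 2 ^ n = x := fun x hx => by
    rw [hφ] at hx
    simp only at hx
    have h1 := hchar x
    have h2 : x ^ 2 ^ n = -x := eq_neg_of_add_eq_zero_right hx
    rw [h2]
    exact neg_eq_of_add_eq_zero_left h1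
  obtain ⟨g, hg⟩ : ∃ g : F → F, ∀ x, φ (g (φ x)) = φ x :=
    ⟨Function.invFun φ, fun x => Function.invFun_eq ⟨x, rfl⟩⟩
  have hinj : Function.Injective (fun x : F => ((⟨φ x, hfix x⟩, ⟨x + g (φ x), hker _ (by
      rw [hadd, hg, hchar])⟩) : {t : F // t ^ 2 ^ n = t} × {t : F // t ^ 2 ^ n = t})) := by
    intro x y hxy
    simp only [Prod.mk.injEq, Subtype.mk.injEq] at hxy
    obtain ⟨h1, h2⟩ := hxy
    rw [h1] at h2
    exact add_right_cancel h2
  have h1 := Fintype.card_le_of_injective _ hinj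
  rw [Fintype.card_prod, h, pow_two] at h1
  exact Nat.mul_self_le_mul_self_iff.1 h1

/-- JOB GR-LB2 -/
theorem t_LB2 (h3 : S_SUR) (h4 : S_UNR) : S_LB2 := by
  intro ι _ _ d mv r hmv hcard F _ _ _ ξ hξ A0 al Fx ow a c hH
  obtain ⟨hf2, hξi, hF4, -, -, -, hun⟩ := h4 r F ξ hξ
  obtain ⟨n, hn⟩ : ∃ n, n = orderOf (2 : ZMod r) / 2 := ⟨_, rfl⟩
  rw [← hn]
  rw [← hn] at hun
  have hchar : ∀ x : F, x + x = 0 := by
    intro x
    haveI : CharP F 2 := charP_of_injective_algebraMap (algebraMap F2 F).injective 2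
    exact CharTwo.add_self_eq_zero x
  have hξ0 : ξ ≠ 0 := by
    rintro rfl
    have h5 := hξ.ord
    rw [orderOf_zero] at h5
    have := hξ.lt
    omega
  have hξne : ξ + ξ⁻¹ ≠ 0 := by
    intro h5
    have h6 : ξ⁻¹ = ξ := by
      have h7 := hchar ξ
      have h8 : ξ + ξ⁻¹ = ξ + ξ := h5.trans h7.symm
      exact add_left_cancel h8
    have h7 : ξ ^ 2 = 1 := by
      rw [pow_two]
      nth_rw 1 [← h6]
      exact inv_mul_cancel₀ hξ0
    have h8 := orderOf_dvd_of_pow_eq_one h7
    rw [hξ.ord] at h8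
    have h9 := Nat.le_of_dvd (by norm_num) h8
    obtain ⟨k, hk⟩ := hξ.odd
    have := hξ.lt
    omega
  have hcJ : Fintype.card {i : ι // r ∣ d i} = mv.card := by
    rw [Fintype.card_subtype]
    congr 1
    ext i
    simp [hmv]
  -- the matrix
  obtain ⟨H, hH1, hH2, hH3⟩ : Pt (fun x y : F => Un r → y = x ^ 2 ^ n) {i : ι // r ∣ d i} := by
    refine Pt_equiv (Fintype.equivFin {i : ι // r ∣ d i}).symm (Pt_fin ?_ ?_ ξ ξ⁻¹ ?_ ?_ hξne _ ?_)
    · intro _
      rw [zero_pow (by positivity)]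
    · intro _
      rw [one_pow]
    · intro hu
      exact (hun hu).2.1.symm
    · intro hu
      exact (hun hu).2.2.1.symm
    · rw [hcJ]
      exact hcard
  -- the translations
  have hrodd : Odd r := hξ.odd
  choose T' hT0 hT1 hT2 hT3 using fun m : {i : ι // r ∣ d i} → {i : ι // r ∣ d i} → F =>
    trans h3 h4 r hrodd d {r} (fun r' hr' => by rw [mem_singleton] at hr'; rw [hr'])
      (fun _ => F) (fun _ => ξ) (fun r' hr' => by rw [mem_singleton] at hr'; rw [hr']; exact hξ)
      r (mem_singleton_self r) m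
  rw [← hn] at hT2
  let P : Type := {t : F // Un r → t ^ 2 ^ n = t}
  obtain ⟨T, hT⟩ : ∃ T : P → Bt r d, T = fun t => T' fun i j => t.1 * H i j := ⟨_, rfl⟩
  have hTa : ∀ t i j, ∑ c, T t i j c = 0 := fun t i j => by rw [hT]; exact hT0 _ i j
  have hTb : ∀ t (i j : {i : ι // r ∣ d i}), i < j → ev ξ⁻¹ (T t i.1 j.1) = t.1 * H i j :=
    fun t i j h => by rw [hT]; exact hT1 _ i j h
  have hTc : ∀ t (i j : {i : ι // r ∣ d i}), i < j → ev ξ (T t i.1 j.1) = t.1 * H j i :=
    fun t i j h => by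
    rw [hT]
    simp only
    rw [hT2 _ i j h]
    by_cases hu : Un r
    · rw [if_pos hu, mul_pow, t.2 hu, ← hH2 i j hu]
    · rw [if_neg hu]
  have hP : 2 ^ n ≤ Fintype.card P := by
    by_cases hu : Un r
    · have h5 := card_fix n (hun hu).1
      refine h5.trans (le_of_eq (Fintype.card_congr ?_))
      exact Equiv.subtypeEquivRight fun t => ⟨fun h _ => h, fun h => h hu⟩
    · have h5 : Fintype.card P = Fintype.card F :=
        Fintype.card_congr (Equiv.subtypeUnivEquiv fun t => fun h => absurd h hu)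
      rw [h5, hξ.card]
      exact Nat.pow_le_pow_right (by norm_num) (by omega)
  haveI : Nonempty P := by
    rw [← Fintype.card_pos_iff]
    exact lt_of_lt_of_le (by positivity) hP
  have hmain : ∀ s : Bt r d, ∑ t : P, (if KM r d mv r A0 al Fx ow a c ξ (s + T t) ≠ ⊥ then (1 : ℝ) else 0) ≤
      2 * mv.card := by
    intro s
    obtain ⟨M, hM⟩ : ∃ M : {i : ι // r ∣ d i} → {i : ι // r ∣ d i} → F, M = fun i j =>
      MM r d mv Fx ξ s i.1 j.1 := ⟨_, rfl⟩
    obtain ⟨dd, hdd⟩ : ∃ dd : {i : ι // r ∣ d i} → F, dd = fun i => ow i.1 +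
      cf (al i.1 + ∑ j, if j = i.1 then 0 else AA r d mv A0 s i.1 j) := ⟨_, rfl⟩
    have hK : ∀ t : P, KM r d mv r A0 al Fx ow a c ξ (s + T t) =
        Kn (fun i j => M i j + t.1 * H i j) dd (fun i => a i.1) (fun i => c i.1) := by
      intro t
      unfold KM
      rw [AA_add A0 s (T t) (hTa t)]
      refine Kn_congr (fun i j hij => ?_) fun i => by rw [hdd]
      rw [hM]
      unfold MM
      have hm : i.1 ∈ mv ∧ j.1 ∈ mv := ⟨(hmv _).2 i.2, (hmv _).2 j.2⟩
      simp only
      rw [if_pos hm, if_pos hm]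
      by_cases hlt : i < j
      · have h5 : ¬ j.1 < i.1 := fun h => absurd h (not_lt.2 hlt.le)
        rw [if_neg h5, if_neg h5, Pi.add_apply, Pi.add_apply, ev_add, hTb t i j hlt]
      · have hlt2 : j < i := lt_of_le_of_ne (not_lt.1 hlt) hij
        have h5 : j.1 < i.1 := hlt2
        rw [if_pos h5, if_pos h5, Pi.add_apply, Pi.add_apply, ev_add, hTc t j i hlt2]
    have h5 := pencil (eqL M dd (fun i => a i.1) (fun i => c i.1)) (mtL H) (mtL_inj H hH3)
      (((univ : Finset P).filter fun t => KM r d mv r A0 al Fx ow a c ξ (s + T t) ≠ ⊥).map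
        ⟨Subtype.val, Subtype.val_injective⟩) (by
        intro t ht
        rw [mem_map] at ht
        obtain ⟨t', ht', rfl⟩ := ht
        rw [mem_filter, hK] at ht'
        obtain ⟨w, hw, hw0⟩ := Submodule.exists_mem_ne_zero_of_ne_bot ht'.2
        exact ⟨w, hw0, eqL_pencil M H hH1 dd _ _ t'.1 w hw⟩)
    rw [card_map, hcJ] at h5
    rw [← sum_filter, sum_const, nsmul_eq_mul, mul_one]
    exact_mod_cast h5
  have h5 := avg_le (univ : Finset (Bt r d)) T (fun m s => ⟨fun _ => mem_univ _, fun _ => mem_univ _⟩)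
    (fun s => if KM r d mv r A0 al Fx ow a c ξ s ≠ ⊥ then (1 : ℝ) else 0)
    (2 * mv.card / 2 ^ n) (fun s _ => by
      refine (hmain s).trans ?_
      have h6 : (2 : ℝ) ^ n ≤ Fintype.card P := by exact_mod_cast hP
      have h7 : (0 : ℝ) < 2 ^ n := by positivity
      rw [div_mul_eq_mul_div, le_div_iff₀ h7]
      exact mul_le_mul_of_nonneg_left h6 (mul_nonneg zero_le_two (Nat.cast_nonneg _)))
  rw [← sum_filter, sum_const, nsmul_eq_mul, mul_one, card_univ] at h5
  exact h5

end Pool.Agent.Q285.GR
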