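import Pool.Agent.Q285.GR.Tr

/-!
# Project GR (helper269), jobs GR-LAR1 and GR-LAR2
-/

set_option autoImplicit false
set_option linter.all false

open scoped Classical
open Finset

namespace Pool.Agent.Q285.GR

open Pool.Agent.Q269.GR

/-- the translations for one order -/
theorem trans (hSUR : S_SUR) (hUNR : S_UNR) {ι : Type} [LinearOrder ι] (N : ℕ) (hN : Odd N)
    (d : ι → ℕ) (R : Finset ℕ) (hR : ∀ r ∈ R, r ∣ N) (F : ℕ → Type) [∀ r, Field (F r)]
    [∀ r, Fintype (F r)] [∀ r, Algebra F2 (F r)] (ξ : ∀ r, F r) (hξ : ∀ r ∈ R, IsRt r (ξ r))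
    (r₀ : ℕ) (hr₀ : r₀ ∈ R) (m : {i : ι // r₀ ∣ d i} → {i : ι // r₀ ∣ d i} → F r₀) :
    ∃ t : Bt N d, (∀ i j, ∑ c, t i j c = 0) ∧
      (∀ i j : {i : ι // r₀ ∣ d i}, i < j → ev (ξ r₀)⁻¹ (t i.1 j.1) = m i j) ∧
      (∀ i j : {i : ι // r₀ ∣ d i}, i < j → ev (ξ r₀) (t i.1 j.1) =
        if Un r₀ then m i j ^ 2 ^ (orderOf (2 : ZMod r₀) / 2) else m j i) ∧
      ∀ r ∈ R, r ≠ r₀ → ∀ i j, r ∣ d i → r ∣ d j → ev (ξ r) (t i j) = 0 ∧ ev (ξ r)⁻¹ (t i j) = 0 := by
  obtain ⟨-, -, -, -, -, -, hun⟩ := hUNR r₀ (F r₀) (ξ r₀) (hξ r₀ hr₀)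
  obtain ⟨m₁, hm₁⟩ : ∃ m₁ : ι → ι → F r₀, m₁ = fun i j => if h : r₀ ∣ d i ∧ r₀ ∣ d j then
    m ⟨i, h.1⟩ ⟨j, h.2⟩ else 0 := ⟨_, rfl⟩
  have hm₁' : ∀ i j : {i : ι // r₀ ∣ d i}, m₁ i.1 j.1 = m i j := fun i j => by
    rw [hm₁]
    exact dif_pos ⟨i.2, j.2⟩
  obtain ⟨t, h1, h2, h3⟩ := tr_exists hSUR N hN d R hR F ξ hξ r₀ hr₀ m₁
    (fun i j => if Un r₀ then m₁ i j ^ 2 ^ (orderOf (2 : ZMod r₀) / 2) else m₁ j i) (fun hu i j => by
      have hc := (hun hu).1
      rw [if_pos hu, ← pow_mul, ← pow_two, ← hc, FiniteField.pow_card])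
  refine ⟨t, h1, fun i j _ => ?_, fun i j _ => ?_, h3⟩
  · rw [(h2 i.1 j.1 i.2 j.2).2, hm₁']
  · rw [(h2 i.1 j.1 i.2 j.2).1, hm₁', hm₁']

theorem card_sub {F W : Type} [Field F] [Fintype F] [AddCommGroup W] [Module F W] [Finite W]
    (K : Submodule F W) (h : K ≠ ⊥) : Fintype.card F ≤ Nat.card K := by
  obtain ⟨w, hw, hw0⟩ := Submodule.exists_mem_ne_zero_of_ne_bot h
  rw [← Nat.card_eq_fintype_card]
  refine Nat.card_le_card_of_injective (fun t : F => (⟨t • w, K.smul_mem t hw⟩ : K)) fun t t' htt => ?_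
  have h1 : t • w = t' • w := congrArg Subtype.val htt
  exact smul_left_injective F hw0 h1

/-- from the mean to the proportion -/
theorem prob {F W M : Type} [Field F] [Fintype F] [AddCommGroup W] [Module F W] [Finite W]
    [Fintype M] (K : M → Submodule F W) (f : ℕ) (hf : 1 ≤ f) (hF : Fintype.card F = 2 ^ f) (E : ℝ)
    (h : ∑ m, (Nat.card (K m) : ℝ) ≤ E * Fintype.card M) :
    (1 - (E - 1) / (2 ^ f - 1)) * Fintype.card M ≤ ∑ m, if K m = ⊥ then (1 : ℝ) else 0 := by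
  have h2 : (2 : ℝ) ≤ 2 ^ f := by
    calc (2 : ℝ) = 2 ^ 1 := (pow_one _).symm
      _ ≤ 2 ^ f := pow_le_pow_right₀ (by norm_num) hf
  have h3 : ∀ m, (2 : ℝ) ^ f - (2 ^ f - 1) * (if K m = ⊥ then (1 : ℝ) else 0) ≤ Nat.card (K m) := by
    intro m
    split_ifs with hK
    · have : 1 ≤ Nat.card (K m) := Nat.card_pos
      have h4 : (1 : ℝ) ≤ Nat.card (K m) := by exact_mod_cast this
      linarith
    · have h4 := card_sub (K m) hK
      rw [hF] at h4
      have h5 : ((2 ^ f : ℕ) : ℝ) ≤ Nat.card (K m) := by exact_mod_cast h4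
      push_cast at h5
      linarith
  have h4 := (sum_le_sum fun m (_ : m ∈ (univ : Finset M)) => h3 m).trans h
  rw [sum_sub_distrib, ← mul_sum, sum_const, card_univ, nsmul_eq_mul] at h4
  have h5 : (0 : ℝ) < 2 ^ f - 1 := by linarith
  have h6 : (1 - (E - 1) / (2 ^ f - 1)) * (Fintype.card M : ℝ) =
      ((2 ^ f - E) * Fintype.card M) / (2 ^ f - 1) := by
    field_simp
    ring
  rw [h6, div_le_iff₀ h5]
  linarith

/-- JOB GR-LAR1 -/
theorem t_LAR1 (h1 : S_LAU) (h2 : S_LAG) (h3 : S_SUR) (h4 : S_UNR) : S_LAR1 := by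
  intro ι _ _ N d mv r hN hr F _ _ _ ξ hξ A0 al Fx ow a c hH hNi f
  choose T hT0 hT1 hT2 hT3 using fun m : {i : ι // r ∣ d i} → {i : ι // r ∣ d i} → F =>
    trans h3 h4 N hN d {r} (fun r' hr' => by rw [mem_singleton] at hr'; rw [hr']; exact hr)
      (fun _ => F) (fun _ => ξ) (fun r' hr' => by rw [mem_singleton] at hr'; rw [hr']; exact hξ)
      r (mem_singleton_self r) m
  refine avg_le _ T (fun m s => ?_) _ (Eb r) fun s _ => ?_
  · rw [mem_filter, mem_filter, AA_add A0 s (T m) (hT0 m)]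
    simp
  · exact mean h1 h2 h4 hξ A0 al Fx ow a c hH hNi T hT0 hT1 hT2 s

/-- JOB GR-LAR2 -/
theorem t_LAR2 (h1 : S_LAU) (h2 : S_LAG) (h3 : S_SUR) (h4 : S_UNR) : S_LAR2 := by
  intro ι _ _ N d mv R hN hR F _ _ _ ξ hξ A0 al Fx ow a c hH hNi f
  have key : ∀ R' : Finset ℕ, R' ⊆ R → (∏ r ∈ R', (1 - dl r)) *
      (((univ : Finset (Bt N d)).filter (fun s => f (AA N d mv A0 s))).card : ℝ) ≤
      (((univ : Finset (Bt N d)).filter (fun s => f (AA N d mv A0 s) ∧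
        ∀ r ∈ R', KM N d mv r A0 al (Fx r) (ow r) a c (ξ r) s = ⊥)).card : ℝ) := by
    intro R'
    induction R' using Finset.induction_on with
    | empty =>
      intro _
      rw [prod_empty, one_mul]
      refine le_of_eq ?_
      congr 2
      ext s
      simp
    | insert r₀ R' hr₀ ih =>
      intro hsub
      have ih' := ih ((subset_insert _ _).trans hsub)
      have hr₀R : r₀ ∈ R := hsub (mem_insert_self _ _)
      obtain ⟨hf2, -, -, hdl, -, -, -⟩ := h4 r₀ (F r₀) (ξ r₀) (hξ r₀ hr₀R)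
      rw [prod_insert hr₀, mul_assoc]
      refine (mul_le_mul_of_nonneg_left ih' hdl).trans ?_
      obtain ⟨S', hS'⟩ : ∃ S' : Finset (Bt N d), S' = (univ : Finset (Bt N d)).filter (fun s =>
        f (AA N d mv A0 s) ∧ ∀ r ∈ R', KM N d mv r A0 al (Fx r) (ow r) a c (ξ r) s = ⊥) := ⟨_, rfl⟩
      rw [← hS']
      choose T hT0 hT1 hT2 hT3 using fun m : {i : ι // r₀ ∣ d i} → {i : ι // r₀ ∣ d i} → F r₀ =>
        trans h3 h4 N hN d R hR F ξ hξ r₀ hr₀R m
      have hinv : ∀ m s, s ∈ S' ↔ s + T m ∈ S' := by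
        intro m s
        rw [hS', mem_filter, mem_filter, AA_add A0 s (T m) (hT0 m)]
        have h5 : ∀ r ∈ R', KM N d mv r A0 al (Fx r) (ow r) a c (ξ r) (s + T m) =
            KM N d mv r A0 al (Fx r) (ow r) a c (ξ r) s := by
          intro r hr
          have hne : r ≠ r₀ := by
            rintro rfl
            exact hr₀ hr
          exact KM_add A0 al (Fx r) (ow r) a c (ξ r) s (T m) (hT0 m)
            fun i j hi hj => hT3 m r (hsub (mem_insert_of_mem hr)) hne i j hi hj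
        constructor
        · rintro ⟨-, h6, h7⟩
          exact ⟨mem_univ _, h6, fun r hr => (h5 r hr).trans (h7 r hr)⟩
        · rintro ⟨-, h6, h7⟩
          exact ⟨mem_univ _, h6, fun r hr => (h5 r hr).symm.trans (h7 r hr)⟩
      have h6 := avg_ge S' T hinv (fun s => if KM N d mv r₀ A0 al (Fx r₀) (ow r₀) a c (ξ r₀) s = ⊥
        then (1 : ℝ) else 0) (1 - dl r₀) (fun s _ => by
          unfold dl
          exact prob (fun m => KM N d mv r₀ A0 al (Fx r₀) (ow r₀) a c (ξ r₀) (s + T m))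
            (orderOf (2 : ZMod r₀)) (by omega) (hξ r₀ hr₀R).card (Eb r₀)
            (mean h1 h2 h4 (hξ r₀ hr₀R) A0 al (Fx r₀) (ow r₀) a c (hH r₀ hr₀R) (hNi r₀ hr₀R)
              T hT0 hT1 hT2 s))
      refine h6.trans (le_of_eq ?_)
      rw [← sum_filter, sum_const, nsmul_eq_mul, mul_one]
      congr 2
      ext s
      rw [mem_filter, hS', mem_filter, mem_filter]
      simp only [mem_insert, forall_eq_or_imp]
      tauto
  exact key R (Subset.refl R)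

end Pool.Agent.Q285.GR
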