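import Pool.Agent.Q269.GR.StA

/-!
# Project GR (helper269): translations of the bits, the basis of the jobs LAR1, LAR2, LB2
-/

set_option autoImplicit false
set_option linter.all false

open scoped Classical
open Finset

namespace Pool.Agent.Q285.GR

open Pool.Agent.Q269.GR

/-- averaging over translations -/
theorem avg {G M : Type} [AddGroup G] [Fintype M] (S : Finset G) (T : M → G)
    (hS : ∀ m s, s ∈ S ↔ s + T m ∈ S) (φ : G → ℝ) :
    (Fintype.card M : ℝ) * ∑ s ∈ S, φ s = ∑ s ∈ S, ∑ m, φ (s + T m) := by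
  rw [sum_comm]
  have h : ∀ m : M, ∑ s ∈ S, φ (s + T m) = ∑ s ∈ S, φ s := fun m =>
    Finset.sum_equiv (Equiv.addRight (T m)) (fun s => hS m s) (fun s _ => rfl)
  simp only [h]
  rw [sum_const, card_univ, nsmul_eq_mul]

theorem avg_le {G M : Type} [AddGroup G] [Fintype M] [Nonempty M] (S : Finset G) (T : M → G)
    (hS : ∀ m s, s ∈ S ↔ s + T m ∈ S) (φ : G → ℝ) (E : ℝ)
    (h : ∀ s ∈ S, ∑ m, φ (s + T m) ≤ E * Fintype.card M) : ∑ s ∈ S, φ s ≤ E * S.card := by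
  have h1 := avg S T hS φ
  have h2 : (0 : ℝ) < Fintype.card M := by exact_mod_cast Fintype.card_pos
  have h3 : (Fintype.card M : ℝ) * ∑ s ∈ S, φ s ≤ Fintype.card M * (E * S.card) := by
    rw [h1]
    refine (sum_le_sum h).trans (le_of_eq ?_)
    rw [sum_const, nsmul_eq_mul]
    ring
  exact le_of_mul_le_mul_left h3 h2

theorem avg_ge {G M : Type} [AddGroup G] [Fintype M] [Nonempty M] (S : Finset G) (T : M → G)
    (hS : ∀ m s, s ∈ S ↔ s + T m ∈ S) (φ : G → ℝ) (E : ℝ)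
    (h : ∀ s ∈ S, E * Fintype.card M ≤ ∑ m, φ (s + T m)) : E * S.card ≤ ∑ s ∈ S, φ s := by
  have h1 := avg_le S T hS (fun s => - φ s) (-E) (fun s hs => by
    rw [sum_neg_distrib]
    have := h s hs
    linarith)
  rw [sum_neg_distrib] at h1
  linarith

section basic

variable {F : Type} [Field F] [Algebra F2 F]

theorem cf_add (x y : F2) : (cf (x + y) : F) = cf x + cf y := map_add _ _ _

theorem ev_add {g : ℕ} (ξ : F) (s t : Fin g → F2) : ev ξ (s + t) = ev ξ s + ev ξ t := by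
  unfold ev
  rw [← sum_add_distrib]
  refine sum_congr rfl fun c _ => ?_
  rw [Pi.add_apply, cf_add, add_mul]

theorem Kn_congr {J : Type} [Fintype J] {M M' : J → J → F} {dd dd' : J → F} {a c : J → F2}
    (h : ∀ i j, j ≠ i → M i j = M' i j) (hd : ∀ i, dd i = dd' i) : Kn M dd a c = Kn M' dd' a c := by
  have hd' : dd = dd' := funext hd
  subst hd'
  ext w
  rw [mem_Kn, mem_Kn]
  have h1 : ∀ i, eqn M dd a c w i = eqn M' dd a c w i := by
    intro i
    unfold eqn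
    congr 1
    congr 1
    refine sum_congr rfl fun j _ => ?_
    by_cases hj : j = i
    · rw [if_pos hj, if_pos hj]
    · rw [if_neg hj, if_neg hj, h i j hj]
  simp only [h1]

/-- the power maps in characteristic two -/
theorem add_pow_two_pow (x y : F) (n : ℕ) : (x + y) ^ 2 ^ n = x ^ 2 ^ n + y ^ 2 ^ n := by
  haveI : CharP F 2 := charP_of_injective_algebraMap (algebraMap F2 F).injective 2
  haveI : Fact (Nat.Prime 2) := ⟨Nat.prime_two⟩
  exact add_pow_char_pow x y 2 n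

theorem cf_pow (x : F2) (n : ℕ) : (cf x : F) ^ 2 ^ n = cf x := by
  have h : ∀ x : F2, x = 0 ∨ x = 1 := by decide
  unfold cf
  rcases h x with rfl | rfl
  · rw [map_zero, zero_pow (by positivity)]
  · rw [map_one, one_pow]

end basic

/-- the translations -/
theorem tr_exists (hSUR : S_SUR) {ι : Type} [LinearOrder ι] (N : ℕ) (hN : Odd N) (d : ι → ℕ)
    (R : Finset ℕ) (hR : ∀ r ∈ R, r ∣ N) (F : ℕ → Type) [∀ r, Field (F r)] [∀ r, Fintype (F r)]
    [∀ r, Algebra F2 (F r)] (ξ : ∀ r, F r) (hξ : ∀ r ∈ R, IsRt r (ξ r)) (r₀ : ℕ) (hr₀ : r₀ ∈ R)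
    (m m' : ι → ι → F r₀) (hm : Un r₀ → ∀ i j, m i j = m' i j ^ 2 ^ (orderOf (2 : ZMod r₀) / 2)) :
    ∃ t : Bt N d, (∀ i j, ∑ c, t i j c = 0) ∧
      (∀ i j, r₀ ∣ d i → r₀ ∣ d j → ev (ξ r₀) (t i j) = m' i j ∧ ev (ξ r₀)⁻¹ (t i j) = m i j) ∧
      ∀ r ∈ R, r ≠ r₀ → ∀ i j, r ∣ d i → r ∣ d j → ev (ξ r) (t i j) = 0 ∧ ev (ξ r)⁻¹ (t i j) = 0 := by
  have hdvd : ∀ r ∈ R, ∀ i j, r ∣ d i → r ∣ d j → r ∣ gg N d i j := fun r hr i j hi hj =>
    Nat.dvd_gcd (hR r hr) (Nat.dvd_gcd hi hj)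
  have hodd : ∀ i j, Odd (gg N d i j) := fun i j => by
    obtain ⟨k, hk⟩ : gg N d i j ∣ N := Nat.gcd_dvd_left _ _
    rw [hk] at hN
    exact Nat.Odd.of_mul_left hN
  have key : ∀ i j, ∃ s : Fin (gg N d i j) → F2, ∑ c, s c = 0 ∧
      (r₀ ∣ d i → r₀ ∣ d j → ev (ξ r₀) s = m' i j ∧ ev (ξ r₀)⁻¹ s = m i j) ∧
      ∀ r ∈ R, r ≠ r₀ → r ∣ d i → r ∣ d j → ev (ξ r) s = 0 ∧ ev (ξ r)⁻¹ s = 0 := by
    intro i j
    obtain ⟨y, hy⟩ : ∃ y : ∀ r, F r × F r, y = Function.update (fun r => (0 : F r × F r)) r₀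
      (m' i j, m i j) := ⟨_, rfl⟩
    have hy0 : y r₀ = (m' i j, m i j) := by rw [hy, Function.update_self]
    have hy1 : ∀ r, r ≠ r₀ → y r = 0 := fun r hr => by rw [hy, Function.update_of_ne hr]
    obtain ⟨s, hs0, hs⟩ := hSUR (gg N d i j) (hodd i j) (R.filter fun r => r ∣ d i ∧ r ∣ d j)
      (fun r hr => by
        rw [mem_filter] at hr
        exact hdvd r hr.1 i j hr.2.1 hr.2.2) F ξ (fun r hr => hξ r (mem_filter.1 hr).1) 0 y
      (fun r hr hu => by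
        by_cases h : r = r₀
        · subst h
          rw [hy0]
          exact hm hu i j
        · rw [hy1 r h]
          simp)
    refine ⟨s, hs0, fun hi hj => ?_, fun r hr hne hi hj => ?_⟩
    · have h1 := hs r₀ (mem_filter.2 ⟨hr₀, hi, hj⟩)
      rw [hy0] at h1
      exact h1
    · have h1 := hs r (mem_filter.2 ⟨hr, hi, hj⟩)
      rw [hy1 r hne] at h1
      exact h1
  choose t ht using key
  exact ⟨t, fun i j => (ht i j).1, fun i j => (ht i j).2.1, fun r hr hne i j => (ht i j).2.2 r hr hne⟩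

section model

variable {ι : Type} [LinearOrder ι] {N : ℕ} {d : ι → ℕ} {mv : Finset ι}

theorem AA_add (A0 : ι → ι → F2) (s t : Bt N d) (ht : ∀ i j, ∑ c, t i j c = 0) :
    AA N d mv A0 (s + t) = AA N d mv A0 s := by
  have h1 : ∀ i j, ∑ c, (s + t) i j c = ∑ c, s i j c := by
    intro i j
    simp only [Pi.add_apply]
    rw [sum_add_distrib, ht, add_zero]
  funext i j
  unfold AA
  rw [h1, h1]

variable {F : Type} [Field F] [Algebra F2 F]

variable [Fintype ι]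

theorem KM_add {r : ℕ} (A0 : ι → ι → F2) (al : ι → F2) (Fx : ι → ι → F) (ow : ι → F)
    (a c : ι → F2) (ξ : F) (s t : Bt N d) (ht : ∀ i j, ∑ c, t i j c = 0)
    (h0 : ∀ i j, r ∣ d i → r ∣ d j → ev ξ (t i j) = 0 ∧ ev ξ⁻¹ (t i j) = 0) :
    KM N d mv r A0 al Fx ow a c ξ (s + t) = KM N d mv r A0 al Fx ow a c ξ s := by
  unfold KM
  rw [AA_add A0 s t ht]
  refine Kn_congr (fun i j _ => ?_) fun i => rfl
  unfold MM
  split_ifs
  · rw [Pi.add_apply, Pi.add_apply, ev_add, (h0 j.1 i.1 j.2 i.2).1, add_zero]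
  · rw [Pi.add_apply, Pi.add_apply, ev_add, (h0 i.1 j.1 i.2 j.2).2, add_zero]
  · rfl

/-- the data for the linear algebra: unitary case -/
theorem nice_inj {r : ℕ} {Fx : ι → ι → F} (B : {i : ι // r ∣ d i} → {i : ι // r ∣ d i} → F)
    (S : Finset {i : ι // r ∣ d i}) (hS : ∀ i, i ∈ S ↔ i.1 ∉ mv)
    (hB : ∀ i j : {i : ι // r ∣ d i}, ¬ (i.1 ∈ mv ∧ j.1 ∈ mv) → B i j = Fx i.1 j.1)
    (h : ∀ v : ι → F, (∀ i, ¬ (i ∉ mv ∧ r ∣ d i) → v i = 0) →
      (∀ j ∈ mv, r ∣ d j → ∑ i, v i * Fx i j = 0) → v = 0)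
    (v : {i : ι // r ∣ d i} → F) (h1 : ∀ i, i ∉ S → v i = 0)
    (h2 : ∀ j, j ∉ S → ∑ i, v i * B i j = 0) : v = 0 := by
  obtain ⟨w, hw⟩ : ∃ w : ι → F, w = fun i => if h : r ∣ d i then v ⟨i, h⟩ else 0 := ⟨_, rfl⟩
  have hw1 : ∀ i : {i : ι // r ∣ d i}, w i.1 = v i := fun i => by
    rw [hw]
    exact dif_pos i.2
  have hw2 : ∀ i, ¬ r ∣ d i → w i = 0 := fun i hi => by
    rw [hw]
    exact dif_neg hi
  have hw0 : w = 0 := by
    apply h
    · intro i hi
      by_cases hd : r ∣ d i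
      · have h3 : i ∈ mv := by
          by_contra h4
          exact hi ⟨h4, hd⟩
        have h5 := hw1 ⟨i, hd⟩
        rw [show w i = v ⟨i, hd⟩ from h5]
        apply h1
        rw [hS]
        exact fun h6 => h6 h3
      · exact hw2 i hd
    · intro j hj hdj
      have h3 := h2 ⟨j, hdj⟩ (by rw [hS]; exact fun h6 => h6 hj)
      rw [← h3]
      have h4 : ∑ i, w i * Fx i j = ∑ i ∈ (univ : Finset ι).filter (fun i => r ∣ d i), w i * Fx i j := by
        rw [sum_filter]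
        refine sum_congr rfl fun i _ => ?_
        split_ifs with hi
        · rfl
        · rw [hw2 i hi, zero_mul]
      rw [h4, ← Finset.sum_subtype_eq_sum_filter]
      have h5 : ((univ : Finset ι).subtype fun i => r ∣ d i) = univ := by
        ext x
        simp
      rw [h5]
      refine sum_congr rfl fun i _ => ?_
      rw [hw1 i]
      by_cases hi : i.1 ∈ mv
      · rw [h1 i (by rw [hS]; exact fun h6 => h6 hi), zero_mul, zero_mul]
      · rw [hB i ⟨j, hdj⟩ (fun h6 => hi h6.1)]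
  funext i
  rw [← hw1 i, hw0]
  rfl

theorem nice_gen {r : ℕ} {a c : ι → F2} (S : Finset {i : ι // r ∣ d i}) (hS : ∀ i, i ∈ S ↔ i.1 ∉ mv)
    (h : Gen (mv.filter fun i => r ∣ d i) a c
      (4 * ((univ : Finset ι).filter fun i => i ∉ mv ∧ r ∣ d i).card + 64)) :
    Gen Sᶜ (fun i => a i.1) (fun i => c i.1) (4 * S.card + 64) := by
  have hc : S.card = ((univ : Finset ι).filter fun i => i ∉ mv ∧ r ∣ d i).card := by
    rw [← card_map (Function.Embedding.subtype fun i => r ∣ d i)]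
    congr 1
    ext x
    rw [mem_map, mem_filter]
    constructor
    · rintro ⟨y, hy, rfl⟩
      exact ⟨mem_univ _, (hS y).1 hy, y.2⟩
    · rintro ⟨-, h1, h2⟩
      exact ⟨⟨x, h2⟩, (hS _).2 h1, rfl⟩
  rw [hc]
  intro p q hpq
  refine (h p q hpq).trans (le_of_eq ?_)
  rw [← card_map (Function.Embedding.subtype fun i => r ∣ d i)]
  congr 1
  ext x
  rw [mem_map, mem_filter, mem_filter]
  constructor
  · rintro ⟨⟨h1, h2⟩, h3⟩
    refine ⟨⟨x, h2⟩, mem_filter.2 ⟨?_, h3⟩, rfl⟩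
    rw [mem_compl, hS]
    exact fun h6 => h6 h1
  · rintro ⟨y, hy, rfl⟩
    rw [mem_filter, mem_compl, hS, not_not] at hy
    exact ⟨⟨hy.1, y.2⟩, hy.2⟩

/-- change of the instance of finiteness -/
theorem swap_inst {X : Type} (i1 i2 : Fintype X) (f : X → ℝ) (c : ℝ)
    (h : (∑ m ∈ @Finset.univ X i1, f m) ≤ c * (@Fintype.card X i1 : ℝ)) :
    (∑ m ∈ @Finset.univ X i2, f m) ≤ c * (@Fintype.card X i2 : ℝ) := by
  have e : i1 = i2 := Subsingleton.elim i1 i2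
  subst e
  exact h

/-- the condition depends on the elements of the finite set only -/
theorem gen_of {J : Type} {Λ Λ' : Finset J} {a c : J → F2} {m : ℕ} (h : Gen Λ a c m)
    (e : ∀ i, i ∈ Λ ↔ i ∈ Λ') : Gen Λ' a c m := by
  have : Λ = Λ' := Finset.ext e
  rw [← this]
  exact h

/-- change of the instance of decidable equality -/
theorem compl_iff {X : Type} [Fintype X] (i1 i2 : DecidableEq X) (S : Finset X) (x : X) :
    x ∈ @compl (Finset X) (@BooleanAlgebra.toCompl (Finset X) (@Finset.booleanAlgebra X _ i1)) S ↔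
    x ∈ @compl (Finset X) (@BooleanAlgebra.toCompl (Finset X) (@Finset.booleanAlgebra X _ i2)) S := by
  have e : i1 = i2 := Subsingleton.elim _ _
  subst e
  exact Iff.rfl

/-- the mean number of elements of the kernel over the translations -/
theorem mean (hLAU : S_LAU) (hLAG : S_LAG) (hUNR : S_UNR) {r : ℕ} [Fintype F] {ξ : F}
    (hξ : IsRt r ξ) (A0 : ι → ι → F2) (al : ι → F2) (Fx : ι → ι → F) (ow : ι → F)
    (a c : ι → F2) (hH : Herm d mv r Fx ow) (hN : Nice d mv r Fx ow a c)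
    (T : ({i : ι // r ∣ d i} → {i : ι // r ∣ d i} → F) → Bt N d)
    (hT0 : ∀ m i j, ∑ c, T m i j c = 0)
    (hT1 : ∀ m (i j : {i : ι // r ∣ d i}), i < j → ev ξ⁻¹ (T m i.1 j.1) = m i j)
    (hT2 : ∀ m (i j : {i : ι // r ∣ d i}), i < j → ev ξ (T m i.1 j.1) =
      if Un r then m i j ^ 2 ^ (orderOf (2 : ZMod r) / 2) else m j i) (s : Bt N d)
    [inst : Fintype ({i : ι // r ∣ d i} → {i : ι // r ∣ d i} → F)] :
    ∑ m, (Nat.card (KM N d mv r A0 al Fx ow a c ξ (s + T m)) : ℝ) ≤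
      Eb r * Fintype.card ({i : ι // r ∣ d i} → {i : ι // r ∣ d i} → F) := by
  obtain ⟨hf2, hξi, hF4, -, -, -, hun⟩ := hUNR r F ξ hξ
  obtain ⟨S, hS⟩ : ∃ S : Finset {i : ι // r ∣ d i}, ∀ i, i ∈ S ↔ i.1 ∉ mv :=
    ⟨univ.filter fun i => i.1 ∉ mv, fun i => by simp⟩
  obtain ⟨B, hB⟩ : ∃ B : {i : ι // r ∣ d i} → {i : ι // r ∣ d i} → F, B = fun i j =>
    if i.1 ∈ mv ∧ j.1 ∈ mv then 0 else Fx i.1 j.1 := ⟨_, rfl⟩
  have hB1 : ∀ i j : {i : ι // r ∣ d i}, ¬ (i.1 ∈ mv ∧ j.1 ∈ mv) → B i j = Fx i.1 j.1 :=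
    fun i j h => by
    rw [hB]
    exact if_neg h
  have hB2 : ∀ i j : {i : ι // r ∣ d i}, (i.1 ∈ mv ∧ j.1 ∈ mv) → B i j = 0 := fun i j h => by
    rw [hB]
    exact if_pos h
  obtain ⟨dd, hdd⟩ : ∃ dd : {i : ι // r ∣ d i} → F, dd = fun i => ow i.1 +
    cf (al i.1 + ∑ j, if j = i.1 then 0 else AA N d mv A0 s i.1 j) := ⟨_, rfl⟩
  have hgen := nice_gen S hS hN.gen
  have hinj1 := nice_inj B S hS hB1 hN.inj1
  have hinj2 := nice_inj (Fx := fun i j => Fx j i) (fun i j => B j i) S hS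
    (fun i j h => hB1 j i fun h' => h ⟨h'.2, h'.1⟩) hN.inj2
  have hmvS : ∀ i j : {i : ι // r ∣ d i}, (i ∈ S ∨ j ∈ S) ↔ ¬ (i.1 ∈ mv ∧ j.1 ∈ mv) := by
    intro i j
    rw [hS, hS]
    tauto
  by_cases hu : Un r
  · obtain ⟨Q, hQ⟩ : ∃ Q : ℕ, Q = 2 ^ (orderOf (2 : ZMod r) / 2) := ⟨_, rfl⟩
    obtain ⟨hcard, hx1, hx2, hev⟩ := hun hu
    obtain ⟨hH1, hH2⟩ := hH hu
    rw [← hQ] at hcard hH1 hH2 hev
    have hEb : Eb r = Q + 9 / 8 := by
      unfold Eb
      rw [if_pos hu, hQ]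
      push_cast
      rfl
    obtain ⟨σ, hσ⟩ : ∃ σ : {i : ι // r ∣ d i} → {i : ι // r ∣ d i} → F, σ = fun i j =>
      ev ξ⁻¹ (s i.1 j.1) := ⟨_, rfl⟩
    have hσ1 : ∀ i j, σ i j = ev ξ⁻¹ (s i.1 j.1) := fun i j => by rw [hσ]
    have hK : ∀ m, KM N d mv r A0 al Fx ow a c ξ (s + T m) =
        Kn (HU S B Q (σ + m)) dd (fun i => a i.1) (fun i => c i.1) := by
      intro m
      unfold KM
      rw [AA_add A0 s (T m) (hT0 m)]
      refine Kn_congr (fun i j hij => ?_) fun i => by rw [hdd]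
      unfold MM HU
      by_cases hm : i.1 ∈ mv ∧ j.1 ∈ mv
      · have hSS : ¬ (i ∈ S ∨ j ∈ S) := by rw [hmvS, not_not]; exact hm
        rw [if_pos hm, if_neg hSS]
        by_cases hlt : i < j
        · have h5 : ¬ j.1 < i.1 := fun h => absurd h (not_lt.2 hlt.le)
          rw [if_neg h5, if_pos hlt, Pi.add_apply,
            Pi.add_apply, ev_add, hT1 m i j hlt, Pi.add_apply, Pi.add_apply, hσ1]
        · have hlt2 : j < i := lt_of_le_of_ne (not_lt.1 hlt) hij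
          rw [if_pos (show j.1 < i.1 from hlt2), if_neg hlt, Pi.add_apply, Pi.add_apply, ev_add,
            hT2 m j i hlt2, if_pos hu, Pi.add_apply, Pi.add_apply, hσ1, hQ, add_pow_two_pow, ← hQ,
            (hev _ (s j.1 i.1)).2]
      · rw [if_neg hm, if_pos ((hmvS i j).2 hm), hB1 i j hm]
    have h1 := hLAU F Q hcard {i : ι // r ∣ d i} S B dd (fun i => a i.1) (fun i => c i.1)
      (fun i j => by
        by_cases hm : i.1 ∈ mv ∧ j.1 ∈ mv
        · rw [hB2 i j hm, hB2 j i ⟨hm.2, hm.1⟩, zero_pow]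
          rw [hQ]
          positivity
        · rw [hB1 i j hm, hB1 j i (fun h => hm ⟨h.2, h.1⟩)]
          exact hH1 i.1 j.1 i.2 j.2 hm)
      (fun i => by
        rw [hdd, hQ]
        simp only
        rw [add_pow_two_pow, cf_pow, ← hQ, hH2 i.1 i.2]) hinj1 hgen
    have h2 : ∑ m, (Nat.card (KM N d mv r A0 al Fx ow a c ξ (s + T m)) : ℝ) =
        ∑ m, (Nat.card (Kn (HU S B Q m) dd (fun i => a i.1) (fun i => c i.1)) : ℝ) := by
      have h3 : ∀ m, (Nat.card (KM N d mv r A0 al Fx ow a c ξ (s + T m)) : ℝ) =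
        (Nat.card (Kn (HU S B Q (σ + m)) dd (fun i => a i.1) (fun i => c i.1)) : ℝ) := fun m => by
        rw [hK m]
      simp only [h3]
      exact Equiv.sum_comp (Equiv.addLeft σ)
        (fun m => (Nat.card (Kn (HU S B Q m) dd (fun i => a i.1) (fun i => c i.1)) : ℝ))
    rw [h2, hEb]
    exact swap_inst _ _ _ _ h1
  · have hEb : Eb r = 17 / 8 := by
      unfold Eb
      rw [if_neg hu]
    obtain ⟨σ, hσ⟩ : ∃ σ : {i : ι // r ∣ d i} → {i : ι // r ∣ d i} → F, σ = fun i j =>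
      if j.1 < i.1 then ev ξ (s j.1 i.1) else ev ξ⁻¹ (s i.1 j.1) := ⟨_, rfl⟩
    have hσ1 : ∀ i j, σ i j = if j.1 < i.1 then ev ξ (s j.1 i.1) else ev ξ⁻¹ (s i.1 j.1) :=
      fun i j => by rw [hσ]
    have hK : ∀ m, KM N d mv r A0 al Fx ow a c ξ (s + T m) =
        Kn (HG S B (σ + m)) dd (fun i => a i.1) (fun i => c i.1) := by
      intro m
      unfold KM
      rw [AA_add A0 s (T m) (hT0 m)]
      refine Kn_congr (fun i j hij => ?_) fun i => by rw [hdd]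
      unfold MM HG
      by_cases hm : i.1 ∈ mv ∧ j.1 ∈ mv
      · have hSS : ¬ (i ∈ S ∨ j ∈ S) := by rw [hmvS, not_not]; exact hm
        rw [if_pos hm, if_neg hSS]
        by_cases hlt : i < j
        · have h5 : ¬ j.1 < i.1 := fun h => absurd h (not_lt.2 hlt.le)
          rw [if_neg h5, Pi.add_apply, Pi.add_apply, ev_add, hT1 m i j hlt, Pi.add_apply,
            Pi.add_apply, hσ1, if_neg h5]
        · have hlt2 : j < i := lt_of_le_of_ne (not_lt.1 hlt) hij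
          have h5 : j.1 < i.1 := hlt2
          rw [if_pos h5, Pi.add_apply, Pi.add_apply, ev_add,
            hT2 m j i hlt2, if_neg hu, Pi.add_apply, Pi.add_apply, hσ1, if_pos h5]
      · rw [if_neg hm, if_pos ((hmvS i j).2 hm), hB1 i j hm]
    have h1 := hLAG F hF4 {i : ι // r ∣ d i} S B dd (fun i => a i.1) (fun i => c i.1)
      hinj1 hinj2 (gen_of hgen fun i => compl_iff _ _ S i)
    have h2 : ∑ m, (Nat.card (KM N d mv r A0 al Fx ow a c ξ (s + T m)) : ℝ) =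
        ∑ m, (Nat.card (Kn (HG S B m) dd (fun i => a i.1) (fun i => c i.1)) : ℝ) := by
      have h3 : ∀ m, (Nat.card (KM N d mv r A0 al Fx ow a c ξ (s + T m)) : ℝ) =
        (Nat.card (Kn (HG S B (σ + m)) dd (fun i => a i.1) (fun i => c i.1)) : ℝ) := fun m => by
        rw [hK m]
      simp only [h3]
      exact Equiv.sum_comp (Equiv.addLeft σ)
        (fun m => (Nat.card (Kn (HG S B m) dd (fun i => a i.1) (fun i => c i.1)) : ℝ))
    rw [h2, hEb]
    exact swap_inst _ _ _ _ h1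

end model

end Pool.Agent.Q285.GR
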